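import Pool.Agent.H23.NVK.MTargets

/-!
# The sum over the diagonal (DSU)
-/

set_option autoImplicit false

open MeasureTheory Set Filter
open scoped Real

namespace Pool.Agent.H86.NVK

open Pool.Agent.H23.NVK

section Loc

variable {α : Type} (N : α → ℕ) (R : Finset α)

open Classical in
/-- the local factor -/
noncomputable def ph (p : α) : ℝ :=
  if p ∈ R then 0 else (1 - 1 / (N p : ℝ) ^ 2) / (1 - 2 / (N p : ℝ)) ^ 2

/-- the local values of the multiplicative function -/
noncomputable def gL (p : α) (k : ℕ) : ℝ := if k = 0 then 1 else if k = 1 then ph N R p else 0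

/-- the local values of its convolution with the Möbius function -/
noncomputable def hL (p : α) (k : ℕ) : ℝ :=
  if k = 0 then 1 else if k = 1 then ph N R p - 1 else if k = 2 then -ph N R p else 0

theorem loc (p : α) (k : ℕ) :
    ∑ i ∈ Finset.HasAntidiagonal.antidiagonal k, hL N R p i.1 * 1 = gL N R p k := by
  rw [Finset.Nat.sum_antidiagonal_eq_sum_range_succ (fun i _ => hL N R p i * 1) k]
  have h2 : ∀ j, ∑ i ∈ Finset.range (j + 3), hL N R p i * 1 = 0 := by
    intro j
    induction j with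
    | zero => simp [Finset.sum_range_succ, hL]
    | succ j ih =>
      rw [show j + 1 + 3 = (j + 3) + 1 by ring, Finset.sum_range_succ, ih]
      simp [hL]
  rcases k with _ | _ | k
  · simp [hL, gL]
  · simp [hL, gL, Finset.sum_range_succ]
  · rw [show (k + 1 + 1).succ = k + 3 by rfl, h2]
    simp [gL]

/-- the function `h` -/
noncomputable def hA (n : α →₀ ℕ) : ℝ := n.prod (hL N R)

/-- the function `g` -/
noncomputable def gA (n : α →₀ ℕ) : ℝ := n.prod (gL N R)

theorem cv_hA (hCVP : T_CVP) : cv (hA N R) (fun _ => 1) = gA N R := by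
  funext n
  have h1 := hCVP α (hL N R) (fun _ _ => 1) (fun p => by simp [hL]) (fun p => rfl) n
  have h2 : (fun b : α →₀ ℕ => b.prod (fun _ _ => (1 : ℝ))) = fun _ => 1 := by
    funext b
    simp [Finsupp.prod]
  rw [h2] at h1
  have h3 : (fun (p : α) (k : ℕ) => ∑ i ∈ Finset.HasAntidiagonal.antidiagonal k,
      hL N R p i.1 * 1) = gL N R := by
    funext p k
    exact loc N R p k
  rw [h3] at h1
  exact h1

theorem gA_sqf {n : α →₀ ℕ} (h : ∀ p, n p ≤ 1) : gA N R n = ∏ p ∈ n.support, ph N R p := by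
  unfold gA Finsupp.prod
  refine Finset.prod_congr rfl fun p hp => ?_
  have h1 : n p = 1 := by
    have := h p
    have := Finsupp.mem_support_iff.1 hp
    omega
  simp [gL, h1]

theorem gA_nsqf {n : α →₀ ℕ} (h : ¬ ∀ p, n p ≤ 1) : gA N R n = 0 := by
  push Not at h
  obtain ⟨p, hp⟩ := h
  unfold gA Finsupp.prod
  refine Finset.prod_eq_zero (i := p) (Finsupp.mem_support_iff.2 (by omega)) ?_
  simp [gL, show n p ≠ 0 by omega, show n p ≠ 1 by omega]

theorem gA_nd {n : α →₀ ℕ} (h : ∀ p, n p ≤ 1) (hd : ¬ Disjoint n.support R) :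
    gA N R n = 0 := by
  rw [gA_sqf N R h]
  rw [Finset.not_disjoint_iff] at hd
  obtain ⟨p, hp, hpR⟩ := hd
  refine Finset.prod_eq_zero hp ?_
  simp [ph, hpR]

variable {N R} {ρ δ : ℝ}

theorem three_le (h : AxA N ρ δ) (hR : Ad N R) {p : α} (hp : p ∉ R) : (3 : ℝ) ≤ N p := by
  have h2 := h.two p
  have h3 : N p ≠ 2 := fun h4 => hp (hR p h4)
  have : 3 ≤ N p := by omega
  exact_mod_cast this

theorem ph_bound (h : AxA N ρ δ) (hR : Ad N R) (p : α) :
    |ph N R p - 1| ≤ (36 + (∑ q ∈ R, (N q : ℝ))) / N p ∧ |ph N R p| ≤ 9 := by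
  have hp2 : (2 : ℝ) ≤ N p := by exact_mod_cast h.two p
  have hp0 : (0 : ℝ) < N p := by linarith
  have hN0 : (0 : ℝ) ≤ ∑ q ∈ R, (N q : ℝ) := Finset.sum_nonneg fun q _ => Nat.cast_nonneg _
  unfold ph
  split_ifs with hpR
  · have hpN : (N p : ℝ) ≤ ∑ q ∈ R, (N q : ℝ) :=
      Finset.single_le_sum (f := fun q => (N q : ℝ)) (fun q _ => Nat.cast_nonneg _) hpR
    refine ⟨?_, by norm_num⟩
    rw [zero_sub, abs_neg, abs_one, le_div_iff₀ hp0]
    linarith
  · have hp3' := three_le h hR hpR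
    have hq : (1 : ℝ) / 3 ≤ 1 - 2 / N p := by
      have : 2 / (N p : ℝ) ≤ 2 / 3 := div_le_div_of_nonneg_left (by norm_num) (by norm_num) hp3'
      linarith
    have hq2 : (1 : ℝ) / 9 ≤ (1 - 2 / (N p : ℝ)) ^ 2 := by nlinarith
    have hq0 : (0 : ℝ) < (1 - 2 / (N p : ℝ)) ^ 2 := by linarith
    have hi : 0 < 1 / (N p : ℝ) := by positivity
    have hi3 : 1 / (N p : ℝ) ≤ 1 / 3 := one_div_le_one_div_of_le (by norm_num) hp3'
    have hn : 0 ≤ 1 - 1 / (N p : ℝ) ^ 2 := by
      have : 1 / (N p : ℝ) ^ 2 = (1 / (N p : ℝ)) ^ 2 := by ring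
      rw [this]; nlinarith
    constructor
    · have e : (1 - 1 / (N p : ℝ) ^ 2) / (1 - 2 / (N p : ℝ)) ^ 2 - 1 =
          (4 * (1 / (N p : ℝ)) - 5 * (1 / (N p : ℝ)) ^ 2) / (1 - 2 / (N p : ℝ)) ^ 2 := by
        rw [div_sub_one hq0.ne']
        congr 1
        ring
      have h1 : 0 ≤ 4 * (1 / (N p : ℝ)) - 5 * (1 / (N p : ℝ)) ^ 2 := by nlinarith
      rw [e, abs_of_nonneg (div_nonneg h1 hq0.le), div_le_iff₀ hq0]
      have h4 : (36 + ∑ q ∈ R, (N q : ℝ)) / (N p : ℝ) =
        (36 + ∑ q ∈ R, (N q : ℝ)) * (1 / N p) := by ring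
      rw [h4]
      have h5 : (36 + ∑ q ∈ R, (N q : ℝ)) * (1 / N p) * (1 / 9) ≤
          (36 + ∑ q ∈ R, (N q : ℝ)) * (1 / N p) * (1 - 2 / (N p : ℝ)) ^ 2 :=
        mul_le_mul_of_nonneg_left hq2 (by positivity)
      nlinarith
    · rw [abs_of_nonneg (div_nonneg hn hq0.le), div_le_iff₀ hq0]
      have : 0 ≤ 1 / (N p : ℝ) ^ 2 := by positivity
      linarith

/-- the local summability -/
theorem sum_loc (hSUM : T_SUM) (h : AxA N ρ δ) (hR : Ad N R) :
    Summable (fun x : α × ℕ =>
      |hL N R x.1 (x.2 + 1) * ((N x.1 : ℝ) ^ (x.2 + 1)) ^ (-(3 / 4) : ℝ)|) := by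
  have h1 : Summable (fun p : α => (N p : ℝ) ^ (-(3 / 2) : ℝ)) := by
    have := (hSUM α N ρ δ h).2.1 (3 / 2) 0 (by norm_num)
    simpa using this
  obtain ⟨K, hK⟩ : ∃ K : ℝ, K = ∑ q ∈ R, (N q : ℝ) := ⟨_, rfl⟩
  have hK0 : 0 ≤ K := by rw [hK]; exact Finset.sum_nonneg fun q _ => Nat.cast_nonneg _
  have h2 : Summable (fun k : ℕ => if k < 2 then (1 : ℝ) else 0) := by
    refine summable_of_ne_finset_zero (s := Finset.range 2) ?_
    intro k hk
    rw [Finset.mem_range] at hk
    rw [if_neg hk]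
  have h3 : Summable (fun x : α × ℕ => ((45 + K) * (N x.1 : ℝ) ^ (-(3 / 2) : ℝ)) *
      (if x.2 < 2 then (1 : ℝ) else 0)) := by
    refine (h1.mul_left (45 + K)).mul_of_nonneg h2 (fun p => ?_) (fun k => ?_)
    · exact mul_nonneg (by linarith) (by positivity)
    · show (0 : ℝ) ≤ if k < 2 then (1 : ℝ) else 0
      split_ifs <;> norm_num
  refine Summable.of_nonneg_of_le (fun x => abs_nonneg _) ?_ h3
  rintro ⟨p, k⟩
  have hp2 : (2 : ℝ) ≤ N p := by exact_mod_cast h.two p
  have hp0 : (0 : ℝ) < N p := by linarith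
  have hp1 : (1 : ℝ) ≤ N p := by linarith
  obtain ⟨h4, h5⟩ := ph_bound h hR p
  rw [← hK] at h4
  dsimp only
  rw [abs_mul, abs_of_nonneg (a := ((N p : ℝ) ^ (k + 1)) ^ (-(3 / 4) : ℝ)) (by positivity)]
  have hx : 0 ≤ (N p : ℝ) ^ (-(3 / 2) : ℝ) := by positivity
  rcases k with _ | _ | k
  · have e1 : (N p : ℝ)⁻¹ * (N p : ℝ) ^ (-(3 / 4) : ℝ) ≤ (N p : ℝ) ^ (-(3 / 2) : ℝ) := by
      rw [← Real.rpow_neg_one, ← Real.rpow_add hp0]
      exact Real.rpow_le_rpow_of_exponent_le hp1 (by norm_num)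
    have e2 : hL N R p (0 + 1) = ph N R p - 1 := by simp [hL]
    rw [e2, zero_add, pow_one, if_pos (by norm_num), mul_one]
    refine (mul_le_mul_of_nonneg_right h4 (by positivity)).trans ?_
    rw [div_eq_mul_inv, mul_assoc]
    exact mul_le_mul (by linarith) e1 (by positivity) (by linarith)
  · have e2 : hL N R p (0 + 1 + 1) = -ph N R p := by simp [hL]
    have e3 : ((N p : ℝ) ^ (0 + 1 + 1)) ^ (-(3 / 4) : ℝ) = (N p : ℝ) ^ (-(3 / 2) : ℝ) := by
      rw [← Real.rpow_natCast, ← Real.rpow_mul hp0.le]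
      norm_num
    rw [e2, abs_neg, e3, if_pos (by norm_num), mul_one]
    exact mul_le_mul_of_nonneg_right (by linarith) hx
  · have e2 : hL N R p (k + 1 + 1 + 1) = 0 := by simp [hL]
    rw [e2, abs_zero, zero_mul]
    rw [if_neg (by omega), mul_zero]

theorem hA_pow (n : α →₀ ℕ) :
    n.prod (fun p k => hL N R p k * ((N p : ℝ) ^ k) ^ (-(3 / 4) : ℝ)) =
      hA N R n * (nF N n : ℝ) ^ (-(3 / 4) : ℝ) := by
  unfold hA nF Finsupp.prod
  rw [Finset.prod_mul_distrib]
  congr 1
  push_cast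
  exact Real.finsetProd_rpow _ _ (fun p _ => by positivity) _

theorem hA_div (n : α →₀ ℕ) :
    n.prod (fun p k => hL N R p k / (N p : ℝ) ^ k) = hA N R n / nF N n := by
  unfold hA nF Finsupp.prod
  rw [Finset.prod_div_distrib]
  push_cast
  rfl

theorem hL_zero (p : α) : hL N R p 0 = 1 := by simp [hL]

theorem hL_one (p : α) : hL N R p 1 = ph N R p - 1 := by simp [hL]

theorem hL_two (p : α) : hL N R p 2 = -ph N R p := by simp [hL]

theorem summable_hA (hEUL : T_EUL) (hSUM : T_SUM) (h : AxA N ρ δ) (hR : Ad N R) :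
    Summable (fun n : α →₀ ℕ => |hA N R n| * (nF N n : ℝ) ^ (-(3 / 4) : ℝ)) := by
  have h1 := (hEUL α (fun p k => hL N R p k * ((N p : ℝ) ^ k) ^ (-(3 / 4) : ℝ))
    (fun p => by simp [hL_zero]) (sum_loc hSUM h hR)).1
  refine h1.congr fun n => ?_
  rw [hA_pow, abs_mul, abs_of_nonneg (a := (nF N n : ℝ) ^ (-(3 / 4) : ℝ)) (by positivity)]

theorem summable_hA' (hEUL : T_EUL) (hSUM : T_SUM) (h : AxA N ρ δ) (hR : Ad N R) :
    Summable (fun n : α →₀ ℕ => |hA N R n| / nF N n * (1 + Real.log (nF N n))) := by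
  refine Summable.of_nonneg_of_le (fun n => ?_) (fun n => ?_)
    ((summable_hA hEUL hSUM h hR).mul_left 5)
  · have h1 : (1 : ℝ) ≤ nF N n := by exact_mod_cast h.one_le_nF n
    have := Real.log_nonneg h1
    positivity
  · have h1 : (1 : ℝ) ≤ nF N n := by exact_mod_cast h.one_le_nF n
    have h0 : (0 : ℝ) < nF N n := by linarith
    have h2 := Real.log_le_rpow_div h0.le (ε := 1 / 4) (by norm_num)
    have h3 : (1 : ℝ) ≤ (nF N n : ℝ) ^ (1 / 4 : ℝ) := Real.one_le_rpow h1 (by norm_num)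
    have h4 : 1 + Real.log (nF N n) ≤ 5 * (nF N n : ℝ) ^ (1 / 4 : ℝ) := by linarith
    have h5 : 0 ≤ |hA N R n| / nF N n := by positivity
    refine (mul_le_mul_of_nonneg_left h4 h5).trans (le_of_eq ?_)
    have h6 : (nF N n : ℝ) ^ (-(3 / 4) : ℝ) = (nF N n : ℝ) ^ (1 / 4 : ℝ) / nF N n := by
      rw [← Real.rpow_sub_one h0.ne']
      norm_num
    rw [h6]
    ring

open Classical in
/-- the Euler product -/
theorem euler (hEUL : T_EUL) (hSUM : T_SUM) (h : AxA N ρ δ) (hR : Ad N R) :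
    ∑' n : α →₀ ℕ, hA N R n / nF N n = ∏' p : α, if p ∈ R then 1 - 1 / (N p : ℝ) else
      (1 - 1 / (N p : ℝ)) * (1 + 1 / (N p : ℝ) * (1 - 1 / (N p : ℝ) ^ 2) /
        (1 - 2 / (N p : ℝ)) ^ 2) := by
  have h1 : Summable (fun x : α × ℕ => |hL N R x.1 (x.2 + 1) / (N x.1 : ℝ) ^ (x.2 + 1)|) := by
    refine Summable.of_nonneg_of_le (fun x => abs_nonneg _) (fun x => ?_)
      (sum_loc hSUM h hR)
    rw [abs_mul, abs_div, div_eq_mul_inv]
    refine mul_le_mul_of_nonneg_left ?_ (abs_nonneg _)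
    have h1 : (1 : ℝ) ≤ (N x.1 : ℝ) ^ (x.2 + 1) := by
      refine one_le_pow₀ ?_
      have := h.two x.1
      exact_mod_cast (by omega : 1 ≤ N x.1)
    rw [abs_of_nonneg (by linarith), abs_of_nonneg (by positivity), ← Real.rpow_neg_one]
    exact Real.rpow_le_rpow_of_exponent_le h1 (by norm_num)
  have h2 := (hEUL α (fun p k => hL N R p k / (N p : ℝ) ^ k)
    (fun p => by simp [hL_zero]) h1).2.2.1
  have h3 : ∀ n : α →₀ ℕ, n.prod (fun p k => hL N R p k / (N p : ℝ) ^ k) =
    hA N R n / nF N n := hA_div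
  rw [tsum_congr h3] at h2
  rw [h2]
  refine tprod_congr fun p => ?_
  have h4 : ∀ k ∉ Finset.range 3, hL N R p k / (N p : ℝ) ^ k = 0 := by
    intro k hk
    rw [Finset.mem_range] at hk
    simp [hL, show k ≠ 0 by omega, show k ≠ 1 by omega, show k ≠ 2 by omega]
  rw [tsum_eq_sum h4]
  have hp2 : (2 : ℝ) ≤ N p := by exact_mod_cast h.two p
  have hp0 : (N p : ℝ) ≠ 0 := by linarith
  rw [Finset.sum_range_succ, Finset.sum_range_succ, Finset.sum_range_one, hL_zero, hL_one,
    hL_two]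
  unfold ph
  by_cases hp : p ∈ R
  · rw [if_pos hp, if_pos hp]
    ring
  · rw [if_neg hp, if_neg hp]
    have hp3' := three_le h hR hp
    have hq : (1 - 2 / (N p : ℝ)) ≠ 0 := by
      have : 2 / (N p : ℝ) ≤ 2 / 3 :=
        div_le_div_of_nonneg_left (by norm_num) (by norm_num) hp3'
      intro h0
      linarith
    have hq' : (N p : ℝ) - 2 ≠ 0 := by linarith
    field_simp
    ring

/-- one exponent -/
theorem main_k (hCVP : T_CVP) (hEUL : T_EUL) (hSUM : T_SUM) (hEXP : T_EXP) (h : AxA N ρ δ)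
    (hR : Ad N R) (k : ℕ) : ∃ C : ℝ, 0 ≤ C ∧ ∀ M : ℝ, 2 ≤ M →
    |∑ n ∈ FM N M, gA N R n / nF N n * (Real.log (M / nF N n) / Real.log M) ^ k -
      (∑' n : α →₀ ℕ, hA N R n / nF N n) * ρ * Real.log M * (1 / (k + 1))| ≤ C := by
  classical
  obtain ⟨c, C₁, hC₁, hE⟩ := hEXP α N ρ δ h k
  have hρ := h.rho
  have hδ := h.del
  obtain ⟨H, hH⟩ : ∃ H, H = ∑' n : α →₀ ℕ, |hA N R n| / nF N n * (1 + Real.log (nF N n)) :=
    ⟨_, rfl⟩
  have hlog0 : ∀ n : α →₀ ℕ, 0 ≤ Real.log (nF N n) := fun n =>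
    Real.log_nonneg (by exact_mod_cast h.one_le_nF n)
  have hs := summable_hA' hEUL hSUM h hR
  have hs1 : Summable fun n : α →₀ ℕ => |hA N R n| / nF N n := by
    refine Summable.of_nonneg_of_le (fun n => by positivity) (fun n => ?_) hs
    have h3 := hlog0 n
    have h4 : 0 ≤ |hA N R n| / nF N n := by positivity
    nlinarith
  have hs2 : Summable fun n : α →₀ ℕ => hA N R n / nF N n := by
    refine Summable.of_norm ?_
    simpa [Real.norm_eq_abs, abs_div] using hs1
  have hH0 : 0 ≤ H := by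
    rw [hH]
    refine tsum_nonneg fun n => ?_
    have h3 := hlog0 n
    positivity
  obtain ⟨A, hA'⟩ : ∃ A : ℝ, A = ∑ j ∈ Finset.range (k + 1), |c j| + C₁ := ⟨_, rfl⟩
  have hA0 : 0 ≤ A := by
    rw [hA']
    exact add_nonneg (Finset.sum_nonneg fun j _ => abs_nonneg _) hC₁.le
  obtain ⟨B, hB⟩ : ∃ B : ℝ, B = 1 / Real.log 2 + 1 := ⟨_, rfl⟩
  have hl2 : 0 < Real.log 2 := Real.log_pos (by norm_num)
  have hB0 : 0 ≤ B := by rw [hB]; positivity
  -- the expansion
  have hE2 : ∀ y : ℝ, 1 ≤ y → |Lam N (fun _ => 1) (lg k) y -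
      ρ * Real.log y ^ (k + 1) / (k + 1)| ≤ A * (1 + Real.log y) ^ k := by
    intro y hy
    have hy0 : 0 ≤ Real.log y := Real.log_nonneg hy
    have h1 := hE y hy
    have h2 : |∑ j ∈ Finset.range (k + 1), c j * lg j y| ≤
        (∑ j ∈ Finset.range (k + 1), |c j|) * (1 + Real.log y) ^ k := by
      refine (Finset.abs_sum_le_sum_abs _ _).trans ?_
      rw [Finset.sum_mul]
      refine Finset.sum_le_sum fun j hj => ?_
      rw [Finset.mem_range] at hj
      rw [abs_mul]
      refine mul_le_mul_of_nonneg_left ?_ (abs_nonneg _)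
      unfold lg
      rw [abs_of_nonneg (pow_nonneg hy0 _)]
      exact (pow_le_pow_left₀ hy0 (by linarith) j).trans
        (pow_le_pow_right₀ (by linarith) (by omega))
    have h3 : C₁ * y ^ (-δ) ≤ C₁ * (1 + Real.log y) ^ k := by
      refine mul_le_mul_of_nonneg_left ?_ hC₁.le
      refine (Real.rpow_le_one_of_one_le_of_nonpos hy (by linarith)).trans ?_
      exact one_le_pow₀ (by linarith)
    have h4 : Lam N (fun _ => 1) (lg k) y - ρ * Real.log y ^ (k + 1) / (k + 1) =
        (Lam N (fun _ => 1) (lg k) y - (ρ * lg (k + 1) y / (k + 1) +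
          ∑ j ∈ Finset.range (k + 1), c j * lg j y)) +
          ∑ j ∈ Finset.range (k + 1), c j * lg j y := by
      unfold lg
      ring
    rw [h4, hA', add_mul]
    refine (abs_add_le _ _).trans ?_
    linarith
  refine ⟨H * (A * B ^ k) + ρ * H, by positivity, ?_⟩
  intro M hM
  obtain ⟨L, hL⟩ : ∃ L, L = Real.log M := ⟨_, rfl⟩
  have hL2 : Real.log 2 ≤ L := by rw [hL]; exact Real.log_le_log (by norm_num) hM
  have hL0 : 0 < L := by linarith
  have hM0 : 0 < M := by linarith
  have hLk : 0 < L ^ k := pow_pos hL0 k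
  have hFM : ∀ n ∈ FM N M, (1 : ℝ) ≤ nF N n ∧ (nF N n : ℝ) ≤ M := fun n hn =>
    ⟨by exact_mod_cast h.one_le_nF n, h.mem_FM.1 hn⟩
  -- the sum over `b`
  have e1 : ∑ n ∈ FM N M, gA N R n / nF N n * (Real.log (M / nF N n) / L) ^ k =
      ∑ n ∈ FM N M, hA N R n / nF N n * (Lam N (fun _ => 1) (lg k) (M / nF N n) / L ^ k) := by
    have h1 : ∑ n ∈ FM N M, gA N R n / nF N n * (Real.log (M / nF N n) / L) ^ k =
        Lam N (gA N R) (lg k) M / L ^ k := by
      unfold Lam lg
      rw [Finset.sum_div]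
      refine Finset.sum_congr rfl fun n _ => ?_
      rw [div_pow]
      ring
    rw [h1, ← cv_hA N R hCVP, ← h.Lam_Lam]
    rw [Lam, Finset.sum_div]
    refine Finset.sum_congr rfl fun n _ => ?_
    ring
  -- first estimate
  have e2 : |∑ n ∈ FM N M, hA N R n / nF N n *
        (Lam N (fun _ => 1) (lg k) (M / nF N n) / L ^ k) -
      ∑ n ∈ FM N M, hA N R n / nF N n *
        (ρ * Real.log (M / nF N n) ^ (k + 1) / (k + 1) / L ^ k)| ≤ H * (A * B ^ k) := by
    rw [← Finset.sum_sub_distrib]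
    refine (Finset.abs_sum_le_sum_abs _ _).trans ?_
    have h1 : ∀ n ∈ FM N M, |hA N R n / nF N n *
        (Lam N (fun _ => 1) (lg k) (M / nF N n) / L ^ k) - hA N R n / nF N n *
        (ρ * Real.log (M / nF N n) ^ (k + 1) / (k + 1) / L ^ k)| ≤
        |hA N R n| / nF N n * (1 + Real.log (nF N n)) * (A * B ^ k) := by
      intro n hn
      obtain ⟨hn1, hn2⟩ := hFM n hn
      have hn0 : (0 : ℝ) < nF N n := by linarith
      rw [← mul_sub, abs_mul, abs_div, abs_of_pos hn0, ← sub_div, abs_div, abs_of_pos hLk]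
      have hy : 1 ≤ M / nF N n := by rw [le_div_iff₀ hn0]; linarith
      have h3 := hE2 (M / nF N n) hy
      have hly := Real.log_nonneg hy
      have h4 : (1 + Real.log (M / nF N n)) ^ k ≤ B ^ k * L ^ k := by
        rw [← mul_pow]
        refine pow_le_pow_left₀ (by linarith) ?_ k
        have h5 : Real.log (M / nF N n) ≤ L := by
          rw [hL]
          exact Real.log_le_log (by positivity) (div_le_self hM0.le hn1)
        have h6 : 1 ≤ 1 / Real.log 2 * L := by
          rw [one_div, inv_mul_eq_div, le_div_iff₀ hl2]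
          linarith
        rw [hB, add_mul]
        linarith
      have h5 : |Lam N (fun _ => 1) (lg k) (M / nF N n) -
          ρ * Real.log (M / nF N n) ^ (k + 1) / (k + 1)| / L ^ k ≤ A * B ^ k := by
        rw [div_le_iff₀ hLk, mul_assoc]
        exact h3.trans (mul_le_mul_of_nonneg_left h4 hA0)
      have h7 := hlog0 n
      have h8 : 0 ≤ |hA N R n| / nF N n := by positivity
      have h9 : 0 ≤ A * B ^ k := by positivity
      refine (mul_le_mul_of_nonneg_left h5 h8).trans ?_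
      refine mul_le_mul_of_nonneg_right ?_ h9
      nlinarith
    refine (Finset.sum_le_sum h1).trans ?_
    rw [← Finset.sum_mul]
    refine mul_le_mul_of_nonneg_right ?_ (by positivity)
    rw [hH]
    refine hs.sum_le_tsum _ fun m _ => ?_
    have h3 := hlog0 m
    positivity
  -- second estimate
  have e3 : |∑ n ∈ FM N M, hA N R n / nF N n *
        (ρ * Real.log (M / nF N n) ^ (k + 1) / (k + 1) / L ^ k) -
      (∑' m : α →₀ ℕ, hA N R m / nF N m) * ρ * L * (1 / (k + 1))| ≤ ρ * H := by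
    obtain ⟨w, hw⟩ : ∃ w : (α →₀ ℕ) → ℝ, w = fun b => if b ∈ FM N M then
        (ρ * Real.log (M / nF N b) ^ (k + 1) / (k + 1) / L ^ k) else 0 := ⟨_, rfl⟩
    have h1 : ∑ n ∈ FM N M, hA N R n / nF N n *
        (ρ * Real.log (M / nF N n) ^ (k + 1) / (k + 1) / L ^ k) =
        ∑' b : α →₀ ℕ, hA N R b / nF N b * w b := by
      rw [tsum_eq_sum (s := FM N M)]
      · refine Finset.sum_congr rfl fun b hb => ?_
        rw [hw]
        simp only [hb, if_true]
      · intro b hb
        rw [hw]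
        simp only [hb, if_false, mul_zero]
    have hsw : Summable fun b : α →₀ ℕ => hA N R b / nF N b * w b := by
      refine summable_of_ne_finset_zero (s := FM N M) ?_
      intro b hb
      rw [hw]
      simp only [hb, if_false, mul_zero]
    have h3 : (∑' m : α →₀ ℕ, hA N R m / nF N m) * ρ * L * (1 / (k + 1)) =
        ∑' m : α →₀ ℕ, hA N R m / nF N m * (ρ * (L * (1 / (k + 1)))) := by
      rw [tsum_mul_right]
      ring
    rw [h1, h3, ← hsw.tsum_sub (hs2.mul_right _)]
    have h4 : ∀ b : α →₀ ℕ, ‖hA N R b / nF N b * w b -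
        hA N R b / nF N b * (ρ * (L * (1 / (k + 1))))‖ ≤
        ρ * (|hA N R b| / nF N b * (1 + Real.log (nF N b))) := by
      intro b
      have hb1 : (1 : ℝ) ≤ nF N b := by exact_mod_cast h.one_le_nF b
      have hb0 : (0 : ℝ) < nF N b := by linarith
      have hlb : 0 ≤ Real.log (nF N b) := hlog0 b
      rw [Real.norm_eq_abs, ← mul_sub, abs_mul, abs_div, abs_of_pos hb0]
      have e0 : ρ * (|hA N R b| / nF N b * (1 + Real.log (nF N b))) =
        |hA N R b| / nF N b * (ρ * (1 + Real.log (nF N b))) := by ring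
      rw [e0]
      refine mul_le_mul_of_nonneg_left ?_ (by positivity)
      have hk1 : (0 : ℝ) < (k : ℝ) + 1 := by positivity
      rw [hw]
      by_cases hbn : b ∈ FM N M
      · simp only [hbn, if_true]
        obtain ⟨-, hb2⟩ := hFM b hbn
        have hx : Real.log (M / nF N b) = L - Real.log (nF N b) := by
          rw [hL, Real.log_div hM0.ne' hb0.ne']
        have hbL : Real.log (nF N b) ≤ L := by rw [hL]; exact Real.log_le_log hb0 hb2
        obtain ⟨x, hx'⟩ : ∃ x, x = Real.log (nF N b) := ⟨_, rfl⟩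
        rw [hx, ← hx']
        rw [← hx'] at hlb hbL
        have hbern : L ^ (k + 1) - (L - x) ^ (k + 1) ≤ (k + 1) * x * L ^ k := by
          have hB := one_add_mul_le_pow (a := -(x / L)) (by
            have : x / L ≤ 1 := by rw [div_le_one hL0]; exact hbL
            linarith) (k + 1)
          have h6 : (1 + -(x / L)) = (L - x) / L := by field_simp; ring
          rw [h6, div_pow, le_div_iff₀ (by positivity)] at hB
          have h7 : (1 + ((k + 1 : ℕ) : ℝ) * -(x / L)) * L ^ (k + 1) =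
              L ^ (k + 1) - (k + 1) * x * L ^ k := by
            push_cast
            rw [pow_succ]
            field_simp
            ring
          linarith
        have hle : (L - x) ^ (k + 1) ≤ L ^ (k + 1) :=
          pow_le_pow_left₀ (by linarith) (by linarith) _
        have e5 : ρ * (L - x) ^ (k + 1) / (k + 1) / L ^ k - ρ * (L * (1 / (k + 1))) =
            -(ρ * ((L ^ (k + 1) - (L - x) ^ (k + 1)) / ((k + 1) * L ^ k))) := by
          rw [pow_succ L k]
          field_simp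
          ring
        have h8 : 0 ≤ (L ^ (k + 1) - (L - x) ^ (k + 1)) / ((k + 1) * L ^ k) :=
          div_nonneg (by linarith) (by positivity)
        rw [e5, abs_neg, abs_of_nonneg (mul_nonneg hρ.le h8)]
        refine mul_le_mul_of_nonneg_left ?_ hρ.le
        rw [div_le_iff₀ (by positivity)]
        nlinarith
      · simp only [hbn, if_false]
        have hMb : M < nF N b := by
          by_contra hcon
          push Not at hcon
          exact hbn (h.mem_FM.2 hcon)
        have hbL : L ≤ Real.log (nF N b) := by rw [hL]; exact Real.log_le_log hM0 hMb.le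
        rw [zero_sub, abs_neg, abs_of_nonneg (by positivity)]
        refine mul_le_mul_of_nonneg_left ?_ hρ.le
        have : 1 / ((k : ℝ) + 1) ≤ 1 := by
          rw [div_le_one hk1]
          have : (0 : ℝ) ≤ k := Nat.cast_nonneg k
          linarith
        nlinarith
    rw [hH, ← tsum_mul_left]
    exact tsum_of_norm_bounded (hs.mul_left ρ).hasSum h4
  rw [← hL, e1]
  have := abs_sub_le (∑ n ∈ FM N M, hA N R n / nF N n *
        (Lam N (fun _ => 1) (lg k) (M / nF N n) / L ^ k))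
      (∑ n ∈ FM N M, hA N R n / nF N n *
        (ρ * Real.log (M / nF N n) ^ (k + 1) / (k + 1) / L ^ k))
      ((∑' m : α →₀ ℕ, hA N R m / nF N m) * ρ * L * (1 / (k + 1)))
  linarith

open Classical in
/-- the coefficients -/
theorem coef (hHQ : T_HQ) (h : AxA N ρ δ) (hR : Ad N R) {d : Finset α} (hd : Disjoint d R) :
    gd N d * Hq N (d ∪ R) ^ 2 = Hq N R ^ 2 * ((∏ p ∈ d, ph N R p) / nS N d) := by
  obtain ⟨C, -, hC⟩ := hHQ α N ρ δ h
  have key : ∀ s : Finset α, (∀ p ∈ s, p ∉ R) →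
      Hq N (s ∪ R) * ∏ p ∈ s, (1 - 2 / (N p : ℝ)) = Hq N R := by
    intro s
    induction s using Finset.induction_on with
    | empty => intro _; simp
    | insert q s hq ih =>
      intro h1
      have h3 := h1 q (Finset.mem_insert_self _ _)
      have h4 := ih fun p hp => h1 p (Finset.mem_insert_of_mem hp)
      have h5 : Ad N (s ∪ R) := fun p hp => Finset.mem_union_right _ (hR p hp)
      have h6 : q ∉ s ∪ R := by
        rw [Finset.mem_union]
        rintro (h7 | h7)
        · exact hq h7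
        · exact h3 h7
      have h7 := (hC _ h5).2.2.1 q (insert q s ∪ R) h6 (fun x => by
        rw [Finset.mem_union, Finset.mem_insert, Finset.mem_union, or_assoc])
      rw [Finset.prod_insert hq, ← mul_assoc, h7, h4]
  have hpr : ∀ p ∈ d, p ∉ R := fun p hp hpR => Finset.disjoint_left.1 hd hp hpR
  have h3 := key d hpr
  have h9 : ∀ p ∈ d, (1 - 2 / (N p : ℝ)) ≠ 0 := by
    intro p hp h0
    have hp3' := three_le h hR (hpr p hp)
    have : 2 / (N p : ℝ) ≤ 2 / 3 := div_le_div_of_nonneg_left (by norm_num) (by norm_num) hp3'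
    linarith
  have h5 : (∏ p ∈ d, ph N R p) / nS N d * (∏ p ∈ d, (1 - 2 / (N p : ℝ))) ^ 2 = gd N d := by
    rw [gd, nS, ← Finset.prod_pow]
    push_cast
    rw [div_mul_eq_mul_div, ← Finset.prod_mul_distrib, ← Finset.prod_div_distrib]
    refine Finset.prod_congr rfl fun p hp => ?_
    have hp0 : (N p : ℝ) ≠ 0 := by
      have := three_le h hR (hpr p hp)
      linarith
    rw [ph, if_neg (hpr p hp), div_mul_cancel₀ _ (pow_ne_zero 2 (h9 p hp))]
    field_simp
  rw [← h3, ← h5]
  ring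

end Loc

theorem pf_DSU (hCVP : T_CVP) (hEUL : T_EUL) (hSUM : T_SUM) (hEXP : T_EXP) (hHQ : T_HQ) :
    T_DSU := by
  classical
  intro α N ρ δ h R F hR
  choose C hC0 hC using fun k => main_k hCVP hEUL hSUM hEXP h hR k
  refine ⟨Hq N R ^ 2 * (∑ k ∈ Finset.range (F.natDegree + 1), |F.coeff k| * C k) + 1, by
    have : 0 ≤ ∑ k ∈ Finset.range (F.natDegree + 1), |F.coeff k| * C k :=
      Finset.sum_nonneg fun k _ => mul_nonneg (abs_nonneg _) (hC0 k)
    positivity, ?_⟩
  intro M hM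
  have e1 : ∑ d ∈ (SM N M).filter (fun d => Disjoint d R),
      gd N d * Hq N (d ∪ R) ^ 2 * F.eval (Real.log (M / nS N d) / Real.log M) =
      Hq N R ^ 2 * ∑ n ∈ FM N M, gA N R n / nF N n *
        F.eval (Real.log (M / nF N n) / Real.log M) := by
    rw [Finset.mul_sum, Finset.sum_filter, h.sum_SM]
    refine Finset.sum_congr rfl fun n _ => ?_
    by_cases h1 : ∀ p, n p ≤ 1
    · rw [if_pos h1]
      have h2 : nF N n = nS N n.support := by
        conv_lhs => rw [eq_ind h1]
        rw [nF_ind]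
      by_cases h3 : Disjoint n.support R
      · rw [if_pos h3, coef hHQ h hR h3, gA_sqf N R h1, h2]
        ring
      · rw [if_neg h3, gA_nd N R h1 h3]
        simp
    · rw [if_neg h1, gA_nsqf N R h1]
      simp
  have e2 : ∑ n ∈ FM N M, gA N R n / nF N n * F.eval (Real.log (M / nF N n) / Real.log M) =
      ∑ k ∈ Finset.range (F.natDegree + 1), F.coeff k *
        ∑ n ∈ FM N M, gA N R n / nF N n * (Real.log (M / nF N n) / Real.log M) ^ k := by
    simp_rw [Polynomial.eval_eq_sum_range, Finset.mul_sum]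
    rw [Finset.sum_comm]
    refine Finset.sum_congr rfl fun k _ => Finset.sum_congr rfl fun d _ => ?_
    ring
  have e3 : ∫ t in (0 : ℝ)..1, F.eval t =
      ∑ k ∈ Finset.range (F.natDegree + 1), F.coeff k * (1 / (k + 1)) := by
    simp_rw [Polynomial.eval_eq_sum_range]
    rw [intervalIntegral.integral_finsetSum]
    · refine Finset.sum_congr rfl fun k _ => ?_
      rw [intervalIntegral.integral_const_mul, integral_pow]
      simp
    · intro k _
      exact (continuous_const.mul (continuous_pow k)).intervalIntegrable _ _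
  rw [e1, e2, e3, Sg, ← euler hEUL hSUM h hR]
  have e4 : Hq N R ^ 2 * (∑ k ∈ Finset.range (F.natDegree + 1), F.coeff k *
        ∑ n ∈ FM N M, gA N R n / nF N n * (Real.log (M / nF N n) / Real.log M) ^ k) -
      Hq N R ^ 2 * (∑' n : α →₀ ℕ, hA N R n / nF N n) * ρ * Real.log M *
        ∑ k ∈ Finset.range (F.natDegree + 1), F.coeff k * (1 / (k + 1)) =
      Hq N R ^ 2 * ∑ k ∈ Finset.range (F.natDegree + 1), F.coeff k *
        (∑ n ∈ FM N M, gA N R n / nF N n * (Real.log (M / nF N n) / Real.log M) ^ k -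
          (∑' n : α →₀ ℕ, hA N R n / nF N n) * ρ * Real.log M * (1 / (k + 1))) := by
    rw [mul_assoc (Hq N R ^ 2), mul_assoc (Hq N R ^ 2), mul_assoc (Hq N R ^ 2), ← mul_sub,
      Finset.mul_sum, ← Finset.sum_sub_distrib]
    congr 1
    refine Finset.sum_congr rfl fun k _ => ?_
    ring
  rw [e4, abs_mul, abs_of_nonneg (by positivity)]
  have e5 : |∑ k ∈ Finset.range (F.natDegree + 1), F.coeff k *
        (∑ n ∈ FM N M, gA N R n / nF N n * (Real.log (M / nF N n) / Real.log M) ^ k -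
          (∑' n : α →₀ ℕ, hA N R n / nF N n) * ρ * Real.log M * (1 / (k + 1)))| ≤
      ∑ k ∈ Finset.range (F.natDegree + 1), |F.coeff k| * C k := by
    refine (Finset.abs_sum_le_sum_abs _ _).trans (Finset.sum_le_sum fun k _ => ?_)
    rw [abs_mul]
    exact mul_le_mul_of_nonneg_left (hC k M hM) (abs_nonneg _)
  have := mul_le_mul_of_nonneg_left e5 (sq_nonneg (Hq N R))
  linarith

end Pool.Agent.H86.NVK
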