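import Pool.Agent.H89.NV.TU2
import Pool.Agent.H34.CM4.IDC

/-!
# Row U_SMM: summability over pairs of ideals, the number of middle coefficients
-/

set_option autoImplicit false

open MeasureTheory Set Filter NumberField NumberField.InfinitePlace
open Pool.Agent.H65.CM4 Pool.Agent.H61.NVK Pool.Agent.H89.NV
open scoped Real

namespace Pool.Agent.H86.NVK

section S1

variable (k : Type) [Field k] [NumberField k]

theorem nm_one_le {I : Ideal (𝓞 k)} (hI : I ≠ ⊥) : 1 ≤ nm I := by
  unfold nm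
  have h1 : Ideal.absNorm I ≠ 0 := by
    rw [Ne, Ideal.absNorm_eq_zero_iff]
    exact hI
  exact_mod_cast Nat.one_le_iff_ne_zero.2 h1

theorem nm_mul' (I J : Ideal (𝓞 k)) : nm (I * J) = nm I * nm J := by
  unfold nm
  rw [map_mul]
  push_cast
  rfl

theorem nm_bot : nm (⊥ : Ideal (𝓞 k)) = 0 := by
  unfold nm
  rw [Ideal.absNorm_bot]
  simp

theorem summable_nm : Summable (fun I : Ideal (𝓞 k) => (nm I ^ 2)⁻¹) := by
  classical
  obtain ⟨C, hC1, hC⟩ := Pool.Agent.H34.CM4.idc_card k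
  have hgeo : Summable (fun j : ℕ => 2 * C * (1 / 2 : ℝ) ^ j) :=
    summable_geometric_two.mul_left _
  refine summable_of_sum_le (c := ∑' j : ℕ, 2 * C * (1 / 2 : ℝ) ^ j) (fun I => by positivity)
    fun S => ?_
  obtain ⟨l, hl⟩ : ∃ l : Ideal (𝓞 k) → ℕ, l = fun I => Nat.log 2 (Ideal.absNorm I) := ⟨_, rfl⟩
  have h0 : ∑ I ∈ S, (nm I ^ 2)⁻¹ = ∑ I ∈ S.filter (fun I => I ≠ ⊥), (nm I ^ 2)⁻¹ := by
    rw [Finset.sum_filter]
    refine Finset.sum_congr rfl fun I _ => ?_
    split_ifs with h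
    · rfl
    · rw [not_not.1 h, nm_bot]
      simp
  have h1 : ∑ I ∈ S.filter (fun I => I ≠ ⊥), (nm I ^ 2)⁻¹ =
      ∑ j ∈ (S.filter (fun I => I ≠ ⊥)).image l,
        ∑ I ∈ (S.filter (fun I => I ≠ ⊥)).filter (fun I => l I = j), (nm I ^ 2)⁻¹ :=
    (Finset.sum_fiberwise_of_maps_to (fun I hI => Finset.mem_image_of_mem _ hI) _).symm
  rw [h0, h1]
  refine le_trans (Finset.sum_le_sum fun j _ => ?_)
    (hgeo.sum_le_tsum ((S.filter (fun I => I ≠ ⊥)).image l) fun j _ => by positivity)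
  have h2 : ∀ I ∈ (S.filter (fun I => I ≠ ⊥)).filter (fun I => l I = j),
      (nm I ^ 2)⁻¹ ≤ ((4 : ℝ) ^ j)⁻¹ ∧ I ∈ Id k (2 ^ (j + 1)) := by
    intro I hI
    obtain ⟨h3, h4⟩ := Finset.mem_filter.1 hI
    have h5 := (Finset.mem_filter.1 h3).2
    have h6 := nm_one_le k h5
    have h7 : Ideal.absNorm I ≠ 0 := by
      rw [Ne, Ideal.absNorm_eq_zero_iff]
      exact h5
    have h8 : 2 ^ j ≤ Ideal.absNorm I := by
      rw [← h4, hl]
      exact Nat.pow_log_le_self 2 h7
    have h9 : Ideal.absNorm I < 2 ^ (j + 1) := by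
      rw [← h4, hl]
      exact Nat.lt_pow_succ_log_self (by norm_num) _
    have h8' : (2 : ℝ) ^ j ≤ nm I := by
      unfold nm
      exact_mod_cast h8
    have h9' : nm I ≤ (2 : ℝ) ^ (j + 1) := by
      unfold nm
      exact_mod_cast h9.le
    refine ⟨?_, (Pool.Agent.H34.CM4.idc_mem k _ I).2 ⟨h5, h9'⟩⟩
    have h10 : (4 : ℝ) ^ j = ((2 : ℝ) ^ j) ^ 2 := by
      rw [← pow_mul, mul_comm, pow_mul]
      norm_num
    rw [h10]
    exact inv_anti₀ (by positivity) (pow_le_pow_left₀ (by positivity) h8' 2)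
  refine (Finset.sum_le_sum fun I hI => (h2 I hI).1).trans ?_
  rw [Finset.sum_const, nsmul_eq_mul]
  have h3 : (((S.filter (fun I => I ≠ ⊥)).filter (fun I => l I = j)).card : ℝ) ≤
      C * 2 ^ (j + 1) := by
    refine le_trans ?_ (hC (2 ^ (j + 1)) (one_le_pow₀ (by norm_num)))
    exact_mod_cast Finset.card_le_card fun I hI => (h2 I hI).2
  refine (mul_le_mul_of_nonneg_right h3 (by positivity)).trans (le_of_eq ?_)
  have h10 : (4 : ℝ) ^ j = (2 : ℝ) ^ j * 2 ^ j := by
    rw [← mul_pow]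
    norm_num
  rw [h10, one_div, inv_pow, pow_succ]
  field_simp

end S1

section S2

variable (k : Type) [Field k] [NumberField k] [IsTotallyReal k]

theorem card_sub (hRSB : T_RSB k) (P J : Ideal (𝓞 k)) (hP : P ≠ ⊥) (hJ : J ≠ ⊥)
    (S : Finset (𝓞 k)) (hS : S ⊆ Rs (P * J)) (hSJ : ∀ j ∈ S, j ∈ J) :
    (S.card : ℝ) ≤ nm P := by
  classical
  have hI : P * J ≠ ⊥ := mul_ne_zero hP hJ
  obtain ⟨hI1, hI2⟩ := hRSB.1 (P * J) hI
  obtain ⟨hJ1, hJ2⟩ := hRSB.1 J hJ
  choose r hr hr' using hI1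
  have hle : P * J ≤ J := Ideal.mul_le_right
  have h1 : (S ×ˢ Rs J).card ≤ (Rs (P * J)).card := by
    refine Finset.card_le_card_of_injOn (fun p => r (p.1 + p.2)) ?_ ?_
    · intro p _
      exact (hr (p.1 + p.2)).1
    · rintro ⟨s, t⟩ hst ⟨s', t'⟩ hst' heq
      have hst1 := Finset.mem_product.1 (Finset.mem_coe.1 hst)
      have hst2 := Finset.mem_product.1 (Finset.mem_coe.1 hst')
      dsimp only at hst1 hst2 heq
      have h2 : (s + t) - r (s + t) ∈ P * J := (hr (s + t)).2
      have h3 : (s' + t') - r (s + t) ∈ P * J := by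
        rw [heq]
        exact (hr (s' + t')).2
      have h4 : (s + t) - (s' + t') ∈ P * J := by
        have := Ideal.sub_mem _ h2 h3
        have e : (s + t) - r (s + t) - ((s' + t') - r (s + t)) = (s + t) - (s' + t') := by ring
        rwa [e] at this
      have h5 : t - t' ∈ J := by
        have h6 := Ideal.sub_mem _ (hle h4) (Ideal.sub_mem _ (hSJ s hst1.1) (hSJ s' hst2.1))
        have e : (s + t) - (s' + t') - (s - s') = t - t' := by ring
        rwa [e] at h6
      have h6 : t = t' := by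
        obtain ⟨ρ, -, hρ⟩ := hJ1 t
        have h7 := hρ t ⟨hst1.2, by rw [sub_self]; exact Ideal.zero_mem _⟩
        have h8 := hρ t' ⟨hst2.2, h5⟩
        rw [h7, h8]
      have h7 : s = s' := by
        have h8 : s - s' ∈ P * J := by
          have e : (s + t) - (s' + t') = s - s' := by rw [h6]; ring
          rwa [e] at h4
        have h9 := hr' s s ⟨hS hst1.1, by rw [sub_self]; exact Ideal.zero_mem _⟩
        have h10 := hr' s s' ⟨hS hst2.1, h8⟩
        rw [h10, ← h9]
      rw [h6, h7]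
  rw [Finset.card_product, hI2, hJ2, map_mul] at h1
  have h2 : 0 < Ideal.absNorm J := by
    refine Nat.pos_of_ne_zero ?_
    rw [Ne, Ideal.absNorm_eq_zero_iff]
    exact hJ
  have h3 := Nat.le_of_mul_le_mul_right h1 h2
  unfold nm
  exact_mod_cast h3

theorem pf_SMM (hRSB : T_RSB k) : T_SMM k := by
  classical
  refine ⟨?_, ?_⟩
  · intro x j h0 hB
    obtain ⟨C, hC⟩ := hB (j + 4)
    have hs : Summable (fun p : Ideal (𝓞 k) × Ideal (𝓞 k) =>
        |C| * ((nm p.1 ^ 2)⁻¹ * (nm p.2 ^ 2)⁻¹)) :=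
      ((summable_nm k).mul_of_nonneg (summable_nm k) (fun I => by
        show (0 : ℝ) ≤ (nm I ^ 2)⁻¹
        positivity) (fun I => by
        show (0 : ℝ) ≤ (nm I ^ 2)⁻¹
        positivity)).mul_left |C|
    refine Summable.of_norm_bounded hs ?_
    rintro ⟨e, A⟩
    rw [Real.norm_eq_abs]
    by_cases he : e = ⊥ ∨ A = ⊥
    · rw [h0 e A he, abs_zero]
      positivity
    · push Not at he
      refine (hC e A he.1 he.2).trans ?_
      have ha := nm_one_le k he.2
      have hb := nm_one_le k he.1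
      rw [nm_mul', pow_two e, nm_mul']
      have ha0 : 0 < nm A := by linarith
      have hb0 : 0 < nm e := by linarith
      rw [mul_div_assoc]
      have h1 : nm A ^ j / (nm e * nm e * nm A) ^ (j + 4) ≤
          (nm e ^ 2)⁻¹ * (nm A ^ 2)⁻¹ := by
        rw [← mul_inv, ← one_div, div_le_div_iff₀ (by positivity) (by positivity), one_mul,
          mul_pow]
        have h2 : nm e ^ 2 ≤ (nm e * nm e) ^ (j + 4) := by
          rw [← pow_two]
          exact le_self_pow₀ (one_le_pow₀ hb) (by omega)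
        have h3 : nm A ^ j * nm A ^ 2 ≤ nm A ^ (j + 4) := by
          rw [← pow_add]
          exact pow_le_pow_right₀ ha (by omega)
        calc nm A ^ j * (nm e ^ 2 * nm A ^ 2) = nm e ^ 2 * (nm A ^ j * nm A ^ 2) := by ring
          _ ≤ (nm e * nm e) ^ (j + 4) * nm A ^ (j + 4) :=
            mul_le_mul h2 h3 (by positivity) (by positivity)
      refine (mul_le_mul_of_nonneg_right (le_abs_self C) (by positivity)).trans ?_
      exact mul_le_mul_of_nonneg_left h1 (abs_nonneg C)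
  · refine ⟨nm (ni k 2), by unfold nm; positivity, ?_⟩
    intro f A D hf
    refine ⟨?_, ?_⟩
    · have h1 : (bs f A D).card ≤ (Rs (ni k 2 * (A * f))).card := by
        unfold bs
        exact Finset.card_filter_le _ _
      have h1' : ((bs f A D).card : ℝ) ≤ ((Rs (ni k 2 * (A * f))).card : ℝ) := by
        exact_mod_cast h1
      refine h1'.trans ?_
      by_cases hA : A = ⊥
      · rw [hA, Ideal.bot_mul, Ideal.mul_bot, hRSB.2.1, nm_bot]
        simp
      · have h2 : ni k 2 * (A * f) ≠ ⊥ := by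
          refine mul_ne_zero ?_ (mul_ne_zero hA hf)
          unfold ni
          rw [Ne, Ideal.zero_eq_bot, Ideal.span_singleton_eq_bot]
          norm_num
        rw [(hRSB.1 _ h2).2]
        have h3 : ((Ideal.absNorm (ni k 2 * (A * f)) : ℕ) : ℝ) = nm (ni k 2 * (A * f)) := rfl
        rw [h3, nm_mul', nm_mul', mul_assoc]
    · intro P b c hP hA
      refine card_sub k hRSB P (A * f) hP (mul_ne_zero hA hf) _ ?_ ?_
      · unfold rts
        exact Finset.filter_subset _ _
      · intro j hj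
        unfold rts at hj
        exact (Finset.mem_filter.1 hj).2.1

end S2

end Pool.Agent.H86.NVK
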