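import Pool.Agent.H86.NVK.SMM
import Pool.Agent.H98.CM4.EMB

/-!
# Row U_HK2: the local numbers and the norms on the sublattices
-/

set_option autoImplicit false
set_option linter.unusedSectionVars false

open MeasureTheory Set Filter NumberField NumberField.InfinitePlace
open Pool.Agent.H65.CM4 Pool.Agent.H61.NVK Pool.Agent.H89.NV
open scoped Real

namespace Pool.Agent.H86.NVK

section alg

variable {R : Type} [CommRing R]

theorem mulmem {b : R} {J K X : Ideal R} (h : ∀ z ∈ J, b * z ∈ K) {w : R} (hw : w ∈ X * J) :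
    b * w ∈ X * K := by
  refine Submodule.mul_induction_on hw (fun x hx z hz => ?_) (fun x y hx hy => ?_)
  · have e : b * (x * z) = x * (b * z) := by ring
    rw [e]
    exact Ideal.mul_mem_mul hx (h z hz)
  · rw [mul_add]
    exact Ideal.add_mem _ hx hy

theorem inter {P Q X : Ideal R} {e : R} (he : e ∈ P) (he' : 1 - e ∈ Q) {x : R} (hP : x ∈ P * X)
    (hQ : x ∈ Q * X) : x ∈ Q * (P * X) := by
  have e1 : x = e * x + (1 - e) * x := by ring
  rw [e1]
  refine Ideal.add_mem _ ?_ (Ideal.mul_mem_mul he' hP)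
  have h1 : e * x ∈ P * (Q * X) := Ideal.mul_mem_mul he hQ
  have h2 : P * (Q * X) = Q * (P * X) := by ring
  rwa [h2] at h1

theorem mem_span_mul {t x : R} [IsDomain R] (ht : t ≠ 0) {I : Ideal R} :
    t * x ∈ Ideal.span {t} * I ↔ x ∈ I := by
  rw [Ideal.mem_span_singleton_mul]
  constructor
  · rintro ⟨z, hz, h⟩
    rwa [← mul_left_cancel₀ ht h]
  · intro h
    exact ⟨x, h, rfl⟩

end alg

section S3

variable (k : Type) [Field k] [NumberField k] [IsTotallyReal k]

theorem le_card (hRSB : T_RSB k) {I I' : Ideal (𝓞 k)} (hI : I ≠ ⊥) (hI' : I' ≠ ⊥)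
    (p p' : 𝓞 k → Prop) [DecidablePred p] [DecidablePred p'] (hp' : ∀ x y, x - y ∈ I' → p' x → p' y) (φ : 𝓞 k → 𝓞 k)
    (h1 : ∀ x, p x → p' (φ x)) (h2 : ∀ x y, p x → p y → φ x - φ y ∈ I' → x - y ∈ I) :
    ((Rs I).filter p).card ≤ ((Rs I').filter p').card := by
  obtain ⟨hI1, -⟩ := hRSB.1 I hI
  obtain ⟨hJ1, -⟩ := hRSB.1 I' hI'
  choose r hr hr' using hJ1
  refine Finset.card_le_card_of_injOn (fun x => r (φ x)) ?_ ?_
  · intro x hx
    rw [Finset.mem_coe, Finset.mem_filter] at hx ⊢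
    exact ⟨(hr (φ x)).1, hp' _ _ (hr (φ x)).2 (h1 x hx.2)⟩
  · intro x hx y hy hxy
    rw [Finset.mem_coe, Finset.mem_filter] at hx hy
    dsimp only at hxy
    have h3 : φ x - φ y ∈ I' := by
      have h4 := (hr (φ x)).2
      have h5 := (hr (φ y)).2
      rw [← hxy] at h5
      have h6 := Ideal.sub_mem _ h4 h5
      have e : φ x - r (φ x) - (φ y - r (φ x)) = φ x - φ y := by ring
      rwa [e] at h6
    have h4 := h2 x y hx.2 hy.2 h3
    obtain ⟨ρ, -, hρ⟩ := hI1 x
    rw [hρ x ⟨hx.1, by rw [sub_self]; exact Ideal.zero_mem _⟩, hρ y ⟨hy.1, h4⟩]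

open Classical in
theorem G3 (hRSB : T_RSB k) {P Q B F Y : Ideal (𝓞 k)} (hP : P ≠ ⊥) (hQ : Q ≠ ⊥) (hB : B ≠ ⊥)
    {e b c x y j₀ : 𝓞 k} (he : e ∈ P) (he' : 1 - e ∈ Q) (hBF : ∀ z ∈ B, ∀ w ∈ B, w * z ∈ F)
    (hbF : ∀ z ∈ B, b * z ∈ F) (hyY : ∀ z ∈ B, y * z ∈ Y) (hj : j₀ ∈ B)
    (hjF : j₀ ^ 2 + b * j₀ + c ∈ P * F) (hjY : x - j₀ * y ∈ P * Y) :
    ((Rs (Q * (P * B))).filter (fun i => i ∈ P * B ∧
      i ^ 2 + (b + 2 * j₀) * i + (j₀ ^ 2 + b * j₀ + c) ∈ Q * (P * F) ∧
      x - j₀ * y - i * y ∈ Q * (P * Y))).card =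
    ((Rs (Q * B)).filter (fun i => i ∈ B ∧ i ^ 2 + b * i + c ∈ Q * F ∧
      x - i * y ∈ Q * Y)).card := by
  have hPB : P * B ≤ B := Ideal.mul_le_right
  have hPF : P * F ≤ F := Ideal.mul_le_right
  have hPY : P * Y ≤ Y := Ideal.mul_le_right
  have hQB : Q * B ≤ B := Ideal.mul_le_right
  have hQPB : Q * (P * B) ≤ Q * B := Ideal.mul_mono_right hPB
  have hI1 : Q * (P * B) ≠ ⊥ := mul_ne_zero hQ (mul_ne_zero hP hB)
  have hI2 : Q * B ≠ ⊥ := mul_ne_zero hQ hB
  -- products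
  have hXF : ∀ (X : Ideal (𝓞 k)) (z w : 𝓞 k), z ∈ X * B → w ∈ B → w * z ∈ X * F :=
    fun X z w hz hw => mulmem (fun z' hz' => hBF z' hz' w hw) hz
  have hXb : ∀ (X : Ideal (𝓞 k)) (z : 𝓞 k), z ∈ X * B → b * z ∈ X * F :=
    fun X z hz => mulmem hbF hz
  have hXy : ∀ (X : Ideal (𝓞 k)) (z : 𝓞 k), z ∈ X * B → y * z ∈ X * Y :=
    fun X z hz => mulmem hyY hz
  -- change modulo X * B
  have hchg : ∀ (X : Ideal (𝓞 k)) (i i' : 𝓞 k), i ∈ B → i' ∈ B → i - i' ∈ X * B →
      i ^ 2 + b * i + c ∈ X * F → i' ^ 2 + b * i' + c ∈ X * F := by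
    intro X i i' hi hi' hd h
    have h1 := hXF X (i - i') (i + i') hd (Ideal.add_mem _ hi hi')
    have h2 := hXb X (i - i') hd
    have h3 := Ideal.sub_mem _ (Ideal.sub_mem _ h h1) h2
    have e1 : i ^ 2 + b * i + c - (i + i') * (i - i') - b * (i - i') = i' ^ 2 + b * i' + c := by
      ring
    rwa [e1] at h3
  have hchy : ∀ (X : Ideal (𝓞 k)) (i i' : 𝓞 k), i - i' ∈ X * B → x - i * y ∈ X * Y →
      x - i' * y ∈ X * Y := by
    intro X i i' hd h
    have h1 := hXy X (i - i') hd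
    have h2 := Ideal.add_mem _ h h1
    have e1 : x - i * y + y * (i - i') = x - i' * y := by ring
    rwa [e1] at h2
  refine le_antisymm ?_ ?_
  · refine le_card k hRSB hI1 hI2 _ _ ?_ (fun i => i + j₀) ?_ ?_
    · rintro i i' hd ⟨h1, h2, h3⟩
      have h4 : i' ∈ B := by
        have h5 := Ideal.sub_mem _ h1 (hQB hd)
        have e1 : i - (i - i') = i' := by ring
        rwa [e1] at h5
      exact ⟨h4, hchg Q i i' h1 h4 hd h2, hchy Q i i' hd h3⟩
    · rintro i ⟨h1, h2, h3⟩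
      refine ⟨Ideal.add_mem _ (hPB h1) hj, ?_, ?_⟩
      · have e1 : (i + j₀) ^ 2 + b * (i + j₀) + c =
          i ^ 2 + (b + 2 * j₀) * i + (j₀ ^ 2 + b * j₀ + c) := by ring
        rw [e1]
        exact Ideal.mul_mono_right hPF h2
      · have e1 : x - (i + j₀) * y = x - j₀ * y - i * y := by ring
        rw [e1]
        exact Ideal.mul_mono_right hPY h3
    · rintro i i' ⟨h1, -, -⟩ ⟨h1', -, -⟩ hd
      have e1 : i + j₀ - (i' + j₀) = i - i' := by ring
      rw [e1] at hd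
      exact inter he he' (Ideal.sub_mem _ h1 h1') hd
  · refine le_card k hRSB hI2 hI1 _ _ ?_ (fun i => e * (i - j₀)) ?_ ?_
    · rintro i i' hd ⟨h1, h2, h3⟩
      have hd' : i - i' ∈ P * B := Ideal.mul_le_right hd
      have hdd : i - i' ∈ (Q * P) * B := by rw [mul_assoc]; exact hd
      have h4 : i' ∈ P * B := by
        have h5 := Ideal.sub_mem _ h1 hd'
        have e1 : i - (i - i') = i' := by ring
        rwa [e1] at h5
      refine ⟨h4, ?_, ?_⟩
      · have h5 := hXF (Q * P) (i - i') (i + i' + 2 * j₀) hdd (Ideal.add_mem _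
          (Ideal.add_mem _ (hPB h1) (hPB h4)) (Ideal.mul_mem_left _ _ hj))
        have h6 := hXb (Q * P) (i - i') hdd
        rw [mul_assoc] at h5 h6
        have h7 := Ideal.sub_mem _ (Ideal.sub_mem _ h2 h5) h6
        have e1 : i ^ 2 + (b + 2 * j₀) * i + (j₀ ^ 2 + b * j₀ + c) -
          (i + i' + 2 * j₀) * (i - i') - b * (i - i') =
            i' ^ 2 + (b + 2 * j₀) * i' + (j₀ ^ 2 + b * j₀ + c) := by ring
        rwa [e1] at h7
      · have h5 := hXy (Q * P) (i - i') hdd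
        rw [mul_assoc] at h5
        have h6 := Ideal.add_mem _ h3 h5
        have e1 : x - j₀ * y - i * y + y * (i - i') = x - j₀ * y - i' * y := by ring
        rwa [e1] at h6
    · rintro i ⟨h1, h2, h3⟩
      have h4 : i - j₀ ∈ B := Ideal.sub_mem _ h1 hj
      have h5 : e * (i - j₀) ∈ P * B := Ideal.mul_mem_mul he h4
      have hi1 : e * (i - j₀) + j₀ ∈ B := Ideal.add_mem _ (hPB h5) hj
      -- modulo Q
      have h6 : i - (e * (i - j₀) + j₀) ∈ Q * B := by
        have e1 : i - (e * (i - j₀) + j₀) = (1 - e) * (i - j₀) := by ring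
        rw [e1]
        exact Ideal.mul_mem_mul he' h4
      have h7 := hchg Q i _ h1 hi1 h6 h2
      have h8 := hchy Q i _ h6 h3
      -- modulo P
      have h9 : j₀ - (e * (i - j₀) + j₀) ∈ P * B := by
        have e1 : j₀ - (e * (i - j₀) + j₀) = -(e * (i - j₀)) := by ring
        rw [e1]
        exact Ideal.neg_mem_iff _ |>.2 h5
      have h10 := hchg P j₀ _ hj hi1 h9 hjF
      have h11 := hchy P j₀ _ h9 hjY
      refine ⟨h5, ?_, ?_⟩
      · have h12 := inter he he' h10 h7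
        have e1 : (e * (i - j₀) + j₀) ^ 2 + b * (e * (i - j₀) + j₀) + c =
          (e * (i - j₀)) ^ 2 + (b + 2 * j₀) * (e * (i - j₀)) + (j₀ ^ 2 + b * j₀ + c) := by ring
        rwa [e1] at h12
      · have h12 := inter he he' h11 h8
        have e1 : x - (e * (i - j₀) + j₀) * y = x - j₀ * y - e * (i - j₀) * y := by ring
        rwa [e1] at h12
    · rintro i i' ⟨h1, -, -⟩ ⟨h1', -, -⟩ hd
      have e1 : e * (i - j₀) - e * (i' - j₀) = e * (i - i') := by ring
      rw [e1] at hd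
      have e2 : i - i' = e * (i - i') + (1 - e) * (i - i') := by ring
      rw [e2]
      exact Ideal.add_mem _ (hQPB hd) (Ideal.mul_mem_mul he' (Ideal.sub_mem _ h1 h1'))

theorem qd_smul (hEMB : T_EMB k) (b D : Pl k → ℝ) (t : 𝓞 k) (u : V2 k) :
    qd b D (t • u) = nm (Ideal.span {t}) ^ 2 * qd b D u := by
  obtain ⟨-, -, -, -, -, -, -, -, h8, -⟩ := hEMB
  rw [h8 t]
  unfold qd Nr
  rw [← Finset.prod_pow, ← Finset.prod_mul_distrib]
  refine Finset.prod_congr rfl fun v _ => ?_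
  have e1 : (((t • u).1 : 𝓞 k) : k) = (t : k) * (u.1 : k) := by
    simp [Prod.smul_fst, smul_eq_mul]
  have e2 : (((t • u).2 : 𝓞 k) : k) = (t : k) * (u.2 : k) := by
    simp [Prod.smul_snd, smul_eq_mul]
  rw [e1, e2, map_mul, map_mul, sq_abs]
  ring

theorem exists_e {P Q : PrI k} (h : Q ≠ P) : ∃ e ∈ P.1, 1 - e ∈ Q.1 := by
  have hP : P.1.IsMaximal := P.2.1.isMaximal P.2.2
  have hQ : Q.1.IsMaximal := Q.2.1.isMaximal Q.2.2
  have hne : P.1 ≠ Q.1 := fun h' => h (Subtype.ext h'.symm)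
  have h1 := hP.coprime_of_ne hQ hne
  have h2 : (1 : 𝓞 k) ∈ P.1 ⊔ Q.1 := by rw [h1]; exact Submodule.mem_top
  obtain ⟨e, he, z, hz, hez⟩ := Submodule.mem_sup.1 h2
  refine ⟨e, he, ?_⟩
  rw [← hez, add_sub_cancel_left]
  exact hz

theorem dvd_mul_iff {P Q : PrI k} (h : Q ≠ P) (A : Ideal (𝓞 k)) : Q.1 ∣ P.1 * A ↔ Q.1 ∣ A := by
  constructor
  · intro h1
    have hpr : Prime Q.1 := Ideal.prime_of_isPrime Q.2.2 Q.2.1
    rcases hpr.dvd_or_dvd h1 with h2 | h2
    · exfalso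
      obtain ⟨e, he, he'⟩ := exists_e k h
      have h3 := Ideal.dvd_iff_le.1 h2 he
      apply Q.2.1.ne_top
      rw [Ideal.eq_top_iff_one]
      have h4 := Ideal.add_mem _ h3 he'
      rwa [add_sub_cancel] at h4
    · exact h2
  · intro h1
    exact h1.mul_left _

open Classical in
theorem nu_eq (f Q a A : Ideal (𝓞 k)) (b c : 𝓞 k) (u : V2 k) : nuP f Q a A b c u =
    (if Q ∣ A ∧ u.2 ∈ Q * a then 1 else 0) +
    ((Rs (Q * (A * f))).filter (fun i => i ∈ A * f ∧ i ^ 2 + b * i + c ∈ Q * (A * f ^ 2) ∧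
      u.1 - i * u.2 ∈ Q * (a * (A * f)))).card := by
  unfold nuP rts
  congr 2
  ext i
  simp only [Finset.mem_filter, and_assoc]

theorem pf_HK2 (hRSB : T_RSB k) (hIDL : T_IDL k) (hTRV : Pool.Agent.H89.NV.T_TRV k) : T_HK2 k := by
  classical
  have hEMB := Pool.Agent.H98.CM4.pf_EMB k
  intro f D hf hD a A b u ha hFm hu
  have hA := hFm.ne
  have hbf := hFm.mem
  obtain ⟨-, hT2, -⟩ := hTRV f A D b hf hFm
  obtain ⟨c, hc⟩ : ∃ c, c = q4 (b ^ 2 + D) := ⟨_, rfl⟩
  rw [← hc] at hT2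
  rw [← hc]
  have hu1 : u.1 ∈ a * (A * f) := hu.1
  have hu2 : u.2 ∈ a := hu.2
  have hBF : ∀ A : Ideal (𝓞 k), ∀ z ∈ A * f, ∀ w ∈ A * f, w * z ∈ A * f ^ 2 := by
    intro A z hz w hw
    have h1 : w * z ∈ f * (A * f) := Ideal.mul_mem_mul (Ideal.mul_le_right hw) hz
    have h2 : f * (A * f) = A * f ^ 2 := by ring
    rwa [h2] at h1
  have hbF : ∀ A : Ideal (𝓞 k), ∀ z ∈ A * f, b * z ∈ A * f ^ 2 := by
    intro A z hz
    have h1 : b * z ∈ f * (A * f) := Ideal.mul_mem_mul hbf hz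
    have h2 : f * (A * f) = A * f ^ 2 := by ring
    rwa [h2] at h1
  have hyY : ∀ a A : Ideal (𝓞 k), u.2 ∈ a → ∀ z ∈ A * f, u.2 * z ∈ a * (A * f) :=
    fun a A h z hz => Ideal.mul_mem_mul h hz
  refine ⟨?_, ?_, ?_⟩
  · intro Q t ht
    refine ⟨?_, ?_, ?_⟩
    · rw [nu_eq, nu_eq]
      have e1 : (t • u).1 = t * u.1 := rfl
      have e2 : (t • u).2 = t * u.2 := rfl
      have e3 : Q.1 * (Ideal.span {t} * a) = Ideal.span {t} * (Q.1 * a) := by ring
      have e4 : Q.1 * (Ideal.span {t} * a * (A * f)) =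
        Ideal.span {t} * (Q.1 * (a * (A * f))) := by ring
      have e5 : ∀ i, t * u.1 - i * (t * u.2) = t * (u.1 - i * u.2) := fun i => by ring
      simp only [e1, e2, e3, e4, e5, mem_span_mul ht]
    · unfold nf
      rw [qd_smul k hEMB, nm_mul']
      have h1 := nm_one_le k (I := Ideal.span {t}) (by
        rw [Ne, Ideal.span_singleton_eq_bot]; exact ht)
      have h2 : nm (Ideal.span {t}) ≠ 0 := by linarith
      have h3 : nm a ≠ 0 := by
        have := nm_one_le k ha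
        linarith
      have h4 : nm f ≠ 0 := by
        have := nm_one_le k hf
        linarith
      have h5 : nm A ≠ 0 := by
        have := nm_one_le k hA
        linarith
      field_simp
    · rw [nu_eq]
      push_cast
      have h1 : (((if Q.1 ∣ A ∧ u.2 ∈ Q.1 * a then 1 else 0 : ℕ) : ℕ) : ℝ) ≤ 1 := by
        split_ifs <;> simp
      have h2 := card_sub k hRSB Q.1 (A * f) Q.2.2 (mul_ne_zero hA hf)
        ((Rs (Q.1 * (A * f))).filter (fun i => i ∈ A * f ∧ i ^ 2 + b * i + c ∈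
          Q.1 * (A * f ^ 2) ∧ u.1 - i * u.2 ∈ Q.1 * (a * (A * f)))) (Finset.filter_subset _ _)
        (fun j hj => (Finset.mem_filter.1 hj).2.1)
      have h3 : np Q = nm Q.1 := rfl
      rw [h3]
      push_cast at h1
      linarith
  · intro P hPA hPu
    obtain ⟨h1, h2, h3⟩ := hIDL.2.1 A P.1 hA hPA
    obtain ⟨A', hA'⟩ : ∃ A', A' = dvi A P.1 := ⟨_, rfl⟩
    rw [← hA'] at h1 h2 h3
    rw [← hA']
    refine ⟨?_, ?_⟩
    · unfold nf np
      rw [nm_mul', h3]
      have h4 := nm_one_le k P.2.2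
      have h5 : nm P.1 ≠ 0 := by linarith
      field_simp
    · intro Q hQP
      obtain ⟨e, he, he'⟩ := exists_e k hQP
      rw [nu_eq, nu_eq]
      have e1 : A * f = P.1 * (A' * f) := by rw [← mul_assoc, h1]
      have e2 : A * f ^ 2 = P.1 * (A' * f ^ 2) := by rw [← mul_assoc, h1]
      have e3 : a * (A * f) = P.1 * (a * (A' * f)) := by rw [e1]; ring
      have e4 : P.1 * a * (A' * f) = P.1 * (a * (A' * f)) := by ring
      have hG := G3 k hRSB (P := P.1) (Q := Q.1) (B := A' * f) (F := A' * f ^ 2)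
        (Y := a * (A' * f)) (b := b) (c := c) (x := u.1) (y := u.2) (j₀ := 0) P.2.2 Q.2.2
        (mul_ne_zero h2 hf) he he' (hBF A') (hbF A') (hyY a A' hu2) (Ideal.zero_mem _)
        (by
          have e5 : (0 : 𝓞 k) ^ 2 + b * 0 + c = c := by ring
          rw [e5, ← e2]
          exact hT2)
        (by
          rw [zero_mul, sub_zero, ← e3]
          exact hu1)
      congr 1
      · have h4 : (Q.1 ∣ A' ∧ u.2 ∈ Q.1 * (P.1 * a)) ↔ (Q.1 ∣ A ∧ u.2 ∈ Q.1 * a) := by
          rw [← h1, dvd_mul_iff k hQP]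
          refine and_congr_right fun _ => ⟨fun h => ?_, fun h => ?_⟩
          · exact Ideal.mul_mono_right Ideal.mul_le_right h
          · exact inter he he' hPu h
        simp only [h4]
      · rw [e3, e2, e1]
        have h5 : ((Rs (Q.1 * (A' * f))).filter (fun i => i ∈ A' * f ∧
          i ^ 2 + b * i + c ∈ Q.1 * (A' * f ^ 2) ∧
          u.1 - i * u.2 ∈ Q.1 * (P.1 * a * (A' * f)))).card =
          ((Rs (Q.1 * (A' * f))).filter (fun i => i ∈ A' * f ∧
          i ^ 2 + b * i + c ∈ Q.1 * (A' * f ^ 2) ∧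
          u.1 - i * u.2 ∈ Q.1 * (a * (A' * f)))).card := by
          congr 1
          refine Finset.filter_congr fun i _ => ?_
          refine and_congr_right fun hi => and_congr_right fun _ => ⟨fun h => ?_, fun h => ?_⟩
          · rw [e4] at h
            exact Ideal.mul_mono_right Ideal.mul_le_right h
          · rw [e4]
            refine inter he he' ?_ h
            refine Ideal.sub_mem _ (by rw [← e3]; exact hu1) ?_
            have h6 := hyY (P.1 * a) A' hPu i hi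
            rw [e4] at h6
            rw [mul_comm i u.2]
            exact h6
        rw [h5, ← hG]
        simp only [mul_zero, add_zero, zero_mul, sub_zero, ne_eq, OfNat.ofNat_ne_zero,
          not_false_eq_true, zero_pow, zero_add]
  · intro P j hj hju
    unfold rts at hj
    obtain ⟨-, hj1, hj2⟩ := Finset.mem_filter.1 hj
    refine ⟨?_, ?_⟩
    · unfold nf np
      have h1 : qd (em (b + 2 * j)) (em D) (u.1 - j * u.2, u.2) = qd (em b) (em D) u := by
        unfold qd Pool.Agent.H89.NV.em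
        refine Finset.prod_congr rfl fun v _ => ?_
        have h3 : ∀ x : 𝓞 k, rv v (x : k) = (rv v).comp (algebraMap (𝓞 k) k) x :=
          fun x => rfl
        simp only [h3, map_sub, map_mul, map_add, map_ofNat]
        ring
      rw [h1, nm_mul']
      have h4 := nm_one_le k P.2.2
      have h5 : nm P.1 ≠ 0 := by linarith
      field_simp
    · intro Q hQP
      obtain ⟨e, he, he'⟩ := exists_e k hQP
      rw [nu_eq, nu_eq]
      have hG := G3 k hRSB (P := P.1) (Q := Q.1) (B := A * f) (F := A * f ^ 2)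
        (Y := a * (A * f)) (b := b) (c := c) (x := u.1) (y := u.2) (j₀ := j) P.2.2 Q.2.2
        (mul_ne_zero hA hf) he he' (hBF A) (hbF A) (hyY a A hu2) hj1 hj2 hju
      have e1 : P.1 * A * f = P.1 * (A * f) := mul_assoc _ _ _
      have e2 : P.1 * A * f ^ 2 = P.1 * (A * f ^ 2) := mul_assoc _ _ _
      have e3 : a * (P.1 * (A * f)) = P.1 * (a * (A * f)) := by ring
      congr 1
      · simp only [dvd_mul_iff k hQP]
      · rw [e2, e1, e3]
        exact hG

end S3

end Pool.Agent.H86.NVK
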